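import Pool.Agent.X152.TQ.Cov
import Pool.Agent.Helper549.Tri.AngleSum

/-!
# From coverings in lattice coordinates to tilings in the plane
-/

set_option autoImplicit false

namespace Pool.Agent.X152.TQ

open MeasureTheory
open Pool.Agent.Helper549.Tri (hull dd cr)
open Pool.Agent.Helper549.Tri.AngleSum (vol_hull)
open Pool.Agent.Helper549.Tri.Basic (hull_closed hull_null_frontier)

/-- the sixth root of unity -/
noncomputable def w : ℂ := ⟨1 / 2, √3 / 2⟩

/-- the point with the coordinates `p` -/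
noncomputable def E (p : ℝ × ℝ) : ℂ := (p.1 : ℂ) + (p.2 : ℂ) * w

theorem E_re (p : ℝ × ℝ) : (E p).re = p.1 + p.2 / 2 := by
  simp [E, w]; ring

theorem E_im (p : ℝ × ℝ) : (E p).im = p.2 * (√3 / 2) := by
  simp [E, w]

theorem E_norm (p : ℝ × ℝ) : ‖E p‖ ^ 2 = Q p := by
  rw [← Complex.normSq_eq_norm_sq, Complex.normSq_apply, E_re, E_im]
  have h : √3 * √3 = 3 := Real.mul_self_sqrt (by norm_num)
  unfold Q
  linear_combination (p.2 ^ 2 / 4) * h

theorem E_add (p q : ℝ × ℝ) : E (p + q) = E p + E q := by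
  simp only [E, Prod.fst_add, Prod.snd_add]; push_cast; ring

theorem E_sub (p q : ℝ × ℝ) : E (p - q) = E p - E q := by
  simp only [E, Prod.fst_sub, Prod.snd_sub]; push_cast; ring

theorem E_smul (s : ℝ) (p : ℝ × ℝ) : E (s • p) = s * E p := by
  simp only [E, Prod.smul_fst, Prod.smul_snd, smul_eq_mul]; push_cast; ring

/-- the vertices -/
noncomputable def vt (P U V : ℝ × ℝ) : Fin 3 → ℂ := ![E P, E (P + U), E (P + V)]

/-- the triangle as a set of combinations -/
theorem hull3 (x y z : ℂ) : hull ![x, y, z] =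
    {p | ∃ s r : ℝ, 0 ≤ s ∧ 0 ≤ r ∧ s + r ≤ 1 ∧ p = x + s * (y - x) + r * (z - x)} := by
  unfold hull
  apply Set.Subset.antisymm
  · refine convexHull_min ?_ ?_
    · rintro _ ⟨j, rfl⟩
      fin_cases j
      · exact ⟨0, 0, le_rfl, le_rfl, by norm_num, by simp⟩
      · exact ⟨1, 0, by norm_num, le_rfl, by norm_num, by simp⟩
      · exact ⟨0, 1, le_rfl, by norm_num, by norm_num, by simp⟩
    · rintro _ ⟨s, r, h1, h2, h3, rfl⟩ _ ⟨s', r', h1', h2', h3', rfl⟩ α β hα hβ hαβ
      refine ⟨α * s + β * s', α * r + β * r', by positivity, by positivity, by nlinarith, ?_⟩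
      have e : (α : ℂ) + β = 1 := by exact_mod_cast hαβ
      rw [Complex.real_smul, Complex.real_smul]
      push_cast
      linear_combination x * e
  · rintro _ ⟨s, r, h1, h2, h3, rfl⟩
    have hc : Convex ℝ (convexHull ℝ (Set.range ![x, y, z])) := convex_convexHull ℝ _
    have hm : ∀ i, (![x, y, z] : Fin 3 → ℂ) i ∈ convexHull ℝ (Set.range ![x, y, z]) :=
      fun i => subset_convexHull ℝ _ ⟨i, rfl⟩
    have h := hc.sum_mem (t := Finset.univ) (w := ![1 - s - r, s, r]) (z := ![x, y, z])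
      (fun i _ => by fin_cases i <;> simp <;> linarith)
      (by rw [Fin.sum_univ_three]; simp; ring) (fun i _ => hm i)
    rw [Fin.sum_univ_three] at h
    simp only [Matrix.cons_val_zero, Matrix.cons_val_one, Matrix.cons_val] at h
    convert h using 1
    rw [Complex.real_smul, Complex.real_smul, Complex.real_smul]
    push_cast
    ring

theorem hull_vt (P U V : ℝ × ℝ) : hull (vt P U V) = E '' Tri P U V := by
  unfold vt
  rw [hull3]
  ext p
  constructor
  · rintro ⟨s, r, h1, h2, h3, rfl⟩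
    refine ⟨P + s • U + r • V, ⟨s, r, h1, h2, h3, rfl⟩, ?_⟩
    simp only [E_add, E_smul]
    ring
  · rintro ⟨_, ⟨s, r, h1, h2, h3, rfl⟩, rfl⟩
    refine ⟨s, r, h1, h2, h3, ?_⟩
    simp only [E_add, E_smul]
    ring

/-- the families of triangles -/
theorem Cov.family {a b c : ℝ} {S : Set (ℝ × ℝ)} {n : ℕ} (h : Cov a b c S n) :
    ∃ t : Fin n → (ℝ × ℝ) × (ℝ × ℝ) × (ℝ × ℝ), (∀ i, Good a b c (t i).2.1 (t i).2.2) ∧
      (⋃ i, Tri (t i).1 (t i).2.1 (t i).2.2) = S := by
  induction h with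
  | @tile P U V hG =>
    refine ⟨fun _ => (P, U, V), fun _ => hG, ?_⟩
    rw [Set.iUnion_const]
  | union _ _ ih1 ih2 =>
    obtain ⟨t1, h1, h1'⟩ := ih1
    obtain ⟨t2, h2, h2'⟩ := ih2
    refine ⟨Fin.append t1 t2, fun i => ?_, ?_⟩
    · refine Fin.addCases (fun j => ?_) (fun j => ?_) i
      · rw [Fin.append_left]; exact h1 j
      · rw [Fin.append_right]; exact h2 j
    · rw [← h1', ← h2']
      ext z
      simp only [Set.mem_iUnion, Set.mem_union]
      constructor
      · rintro ⟨i, hi⟩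
        revert hi
        refine Fin.addCases (fun j => ?_) (fun j => ?_) i
        · rw [Fin.append_left]; exact fun h => Or.inl ⟨j, h⟩
        · rw [Fin.append_right]; exact fun h => Or.inr ⟨j, h⟩
      · rintro (⟨j, hj⟩ | ⟨j, hj⟩)
        · exact ⟨Fin.castAdd _ j, by rw [Fin.append_left]; exact hj⟩
        · exact ⟨Fin.natAdd _ j, by rw [Fin.append_right]; exact hj⟩

/-- the volume in terms of the coordinates -/
theorem vol_vt : ∃ κ : ℝ, 0 < κ ∧ ∀ P U V : ℝ × ℝ, U.1 * V.2 - U.2 * V.1 ≠ 0 →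
    volume (hull (vt P U V)) = ENNReal.ofReal (κ * |U.1 * V.2 - U.2 * V.1|) := by
  obtain ⟨κ, hκ, h⟩ := vol_hull
  have h3 : (0:ℝ) < √3 := Real.sqrt_pos.2 (by norm_num)
  refine ⟨κ * (√3 / 2), by positivity, ?_⟩
  have key : ∀ P U V : ℝ × ℝ, dd (vt P U V) = √3 / 2 * (U.1 * V.2 - U.2 * V.1) := by
    intro P U V
    have e1 : vt P U V 1 - vt P U V 0 = E U := by
      show E (P + U) - E P = E U
      rw [E_add]; ring
    have e2 : vt P U V 2 - vt P U V 0 = E V := by
      show E (P + V) - E P = E V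
      rw [E_add]; ring
    unfold dd
    rw [e1, e2]
    unfold cr
    rw [E_re, E_im, E_re, E_im]
    ring
  have pos : ∀ P U V : ℝ × ℝ, 0 < U.1 * V.2 - U.2 * V.1 →
      volume (hull (vt P U V)) = ENNReal.ofReal (κ * (√3 / 2) * |U.1 * V.2 - U.2 * V.1|) := by
    intro P U V hD
    rw [h _ (by rw [key]; positivity), key, abs_of_pos hD]
    congr 1
    ring
  intro P U V hD
  rcases lt_or_gt_of_ne hD with h' | h'
  · have hs : hull (vt P U V) = hull (vt P V U) := by
      rw [hull_vt, hull_vt]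
      congr 1
      ext z
      constructor
      · rintro ⟨s, r, h1, h2, h3, rfl⟩
        exact ⟨r, s, h2, h1, by linarith, by abel⟩
      · rintro ⟨s, r, h1, h2, h3, rfl⟩
        exact ⟨r, s, h2, h1, by linarith, by abel⟩
    rw [hs, pos P V U (by linarith)]
    congr 2
    rw [← abs_neg]
    congr 1
    ring
  · exact pos P U V h'

theorem good_det {a b c : ℝ} (hc : c ^ 2 = a ^ 2 + b ^ 2 + a * b) (ha : 0 < a) (hb : 0 < b)
    {U V : ℝ × ℝ} (h : Good a b c U V) : |U.1 * V.2 - U.2 * V.1| = a * b := by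
  obtain ⟨h1, h2, h3⟩ := h
  unfold Q at h1 h2 h3
  simp only [Prod.fst_sub, Prod.snd_sub] at h3
  rw [← abs_of_pos (mul_pos ha hb)]
  rw [← sq_eq_sq_iff_abs_eq_abs]
  have hB : 2 * U.1 * V.1 + U.1 * V.2 + U.2 * V.1 + 2 * U.2 * V.2 = - (a * b) := by
    linear_combination h1 + h2 - h3 - hc
  have key : 3 * (U.1 * V.2 - U.2 * V.1) ^ 2 =
      4 * (U.1 ^ 2 + U.1 * U.2 + U.2 ^ 2) * (V.1 ^ 2 + V.1 * V.2 + V.2 ^ 2) -
        (2 * U.1 * V.1 + U.1 * V.2 + U.2 * V.1 + 2 * U.2 * V.2) ^ 2 := by ring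
  rw [h1, h2, hB] at key
  linarith

/-- disjointness follows from the areas -/
theorem disj_of_vol {n : ℕ} {t : Fin n → Set ℂ} {T : Set ℂ} (hT : (⋃ i, t i) = T) {v : ENNReal}
    (hv : v ≠ ⊤) (ht : ∀ i, volume (t i) = v) (hcl : ∀ i, IsClosed (t i))
    (hvol : volume T = n * v) :
    Pairwise fun i j => Disjoint (interior (t i)) (interior (t j)) := by
  intro i j hij
  rw [Set.disjoint_iff_inter_eq_empty]
  by_contra hne
  have hopen : IsOpen (interior (t i) ∩ interior (t j)) := isOpen_interior.inter isOpen_interior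
  have hpos : 0 < volume (interior (t i) ∩ interior (t j)) :=
    hopen.measure_pos volume (Set.nonempty_iff_ne_empty.2 hne)
  have hpos2 : 0 < volume (t i ∩ t j) :=
    hpos.trans_le (measure_mono (Set.inter_subset_inter interior_subset interior_subset))
  have hsub : T ⊆ (⋃ k ∈ Finset.univ.erase j, t k) ∪ (t j \ t i) := by
    rw [← hT]
    intro z hz
    obtain ⟨k, hk⟩ := Set.mem_iUnion.1 hz
    by_cases hkj : k = j
    · subst hkj
      by_cases hzi : z ∈ t i
      · exact Or.inl (Set.mem_biUnion (Finset.mem_erase.2 ⟨hij, Finset.mem_univ _⟩) hzi)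
      · exact Or.inr ⟨hk, hzi⟩
    · exact Or.inl (Set.mem_biUnion (Finset.mem_erase.2 ⟨hkj, Finset.mem_univ _⟩) hk)
  have h1 : volume (⋃ k ∈ Finset.univ.erase j, t k) ≤ (n - 1 : ℕ) * v := by
    refine (measure_biUnion_finset_le _ _).trans ?_
    rw [Finset.sum_congr rfl fun k _ => ht k, Finset.sum_const, Finset.card_erase_of_mem
      (Finset.mem_univ _), Finset.card_univ, Fintype.card_fin, nsmul_eq_mul]
  have h2 : volume (t j \ t i) + volume (t i ∩ t j) = v := by
    rw [← ht j, Set.inter_comm, add_comm]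
    exact measure_inter_add_sdiff (t j) (hcl i).measurableSet
  have hn : 0 < n := Fin.pos j
  have h3 : (n : ENNReal) * v ≤ (n - 1 : ℕ) * v + volume (t j \ t i) := by
    rw [← hvol]
    exact (measure_mono hsub).trans ((measure_union_le _ _).trans (by gcongr))
  have h4 : (n : ENNReal) * v = (n - 1 : ℕ) * v + v := by
    have : (n : ENNReal) = (n - 1 : ℕ) + 1 := by
      have : n = (n - 1) + 1 := by omega
      exact_mod_cast this
    rw [this, add_mul, one_mul]
  rw [h4] at h3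
  have h5 : v ≤ volume (t j \ t i) := by
    refine (ENNReal.add_le_add_iff_left ?_).1 h3
    exact ENNReal.mul_ne_top (ENNReal.natCast_ne_top _) hv
  have h6 : volume (t j \ t i) ≠ ⊤ := ne_top_of_le_ne_top hv (by rw [← h2]; exact le_self_add)
  have h7 : volume (t j \ t i) < v := by
    rw [← h2]
    exact ENNReal.lt_add_right h6 hpos2.ne'
  exact absurd h5 (not_le.2 h7)

/-- tilings from coverings -/
theorem tiling {a b c X : ℝ} (hc : c ^ 2 = a ^ 2 + b ^ 2 + a * b) (ha : 0 < a) (hb : 0 < b)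
    (hX : 0 < X) {n : ℕ} (h : Cov a b c (Tri (0, 0) (X, 0) (0, X)) n)
    (hn : X ^ 2 = n * (a * b)) :
    ∃ t : Fin n → (ℝ × ℝ) × (ℝ × ℝ) × (ℝ × ℝ), (∀ i, Good a b c (t i).2.1 (t i).2.2) ∧
      (⋃ i, hull (vt (t i).1 (t i).2.1 (t i).2.2)) = hull (vt (0, 0) (X, 0) (0, X)) ∧
      Pairwise fun i j => Disjoint (interior (hull (vt (t i).1 (t i).2.1 (t i).2.2)))
        (interior (hull (vt (t j).1 (t j).2.1 (t j).2.2))) := by
  obtain ⟨t, h1, h2⟩ := h.family
  obtain ⟨κ, hκ, hvol⟩ := vol_vt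
  have hcov : (⋃ i, hull (vt (t i).1 (t i).2.1 (t i).2.2)) = hull (vt (0, 0) (X, 0) (0, X)) := by
    rw [hull_vt, ← h2, Set.image_iUnion]
    exact Set.iUnion_congr fun i => hull_vt _ _ _
  refine ⟨t, h1, hcov, ?_⟩
  have hvt : ∀ i, volume (hull (vt (t i).1 (t i).2.1 (t i).2.2)) =
      ENNReal.ofReal (κ * (a * b)) := by
    intro i
    have hd := good_det hc ha hb (h1 i)
    rw [hvol _ _ _ ?_, hd]
    intro h0
    rw [h0, abs_zero] at hd
    have := mul_pos ha hb
    linarith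
  refine disj_of_vol hcov ENNReal.ofReal_ne_top hvt (fun i => hull_closed _) ?_
  rw [hvol _ _ _ (by simp; exact hX.ne')]
  have e : κ * |(X, (0:ℝ)).1 * ((0:ℝ), X).2 - (X, (0:ℝ)).2 * ((0:ℝ), X).1| =
      (n : ℝ) * (κ * (a * b)) := by
    simp only [mul_zero, sub_zero]
    rw [abs_of_pos (by positivity)]
    linear_combination κ * hn
  rw [e, ENNReal.ofReal_mul (Nat.cast_nonneg n), ENNReal.ofReal_natCast]

end Pool.Agent.X152.TQ
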