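import Pool.Agent.X152.TQ.Cov

/-!
# The equilateral triangle of side `12960` is a union of `116640` tiles with the sides `32, 45, 67`
-/

set_option autoImplicit false

namespace Pool.Agent.X152.TQ

/-- an isosceles trapezoid with the legs `1440` and the base `L` -/
def Trap (x₀ y₀ L : ℝ) : Set (ℝ × ℝ) :=
  {z | y₀ ≤ z.2 ∧ z.2 ≤ y₀ + 1440 ∧ x₀ ≤ z.1 ∧ (z.1 - x₀) + (z.2 - y₀) ≤ L}

/-- a parallelogram with the height `1440` -/
def Box (x₀ y₀ w : ℝ) : Set (ℝ × ℝ) :=
  {z | y₀ ≤ z.2 ∧ z.2 ≤ y₀ + 1440 ∧ x₀ ≤ z.1 ∧ z.1 ≤ x₀ + w}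

theorem trap_cov (x₀ y₀ : ℝ) : Cov 32 45 67 (Trap x₀ y₀ 4489) 7538 := by
  have g1 : Good 32 45 67 (32, 0) (0, -45) := by
    unfold Good Q; norm_num
  have g2 : Good 32 45 67 (-1024 / 67, -1440 / 67) (3465 / 67, -1440 / 67) := by
    unfold Good Q; norm_num
  have g3 : Good 32 45 67 (32, -32) (-45, 0) := by
    unfold Good Q; norm_num
  refine (Cov.union (triN (P := (x₀, y₀ + 1440)) g1 31)
    (Cov.union (triN (P := (x₀ + 1024, y₀ + 1440)) g2 66)
      (triN (P := (x₀ + 3049, y₀ + 1440)) g3 44))).cast ?_ (by norm_num)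
  ext ⟨x, y⟩
  simp only [Set.mem_union, TriN, Trap, Set.mem_ofPred_eq, Prod.smul_mk, Prod.mk_add_mk,
    Prod.mk.injEq, smul_eq_mul]
  constructor
  · rintro (⟨s, r, h1, h2, h3, rfl, rfl⟩ | ⟨s, r, h1, h2, h3, rfl, rfl⟩ |
      ⟨s, r, h1, h2, h3, rfl, rfl⟩)
    · norm_num at h3
      refine ⟨by linarith, by linarith, by linarith, by linarith⟩
    · norm_num at h3
      refine ⟨by linarith, by linarith, by linarith, by linarith⟩
    · norm_num at h3
      refine ⟨by linarith, by linarith, by linarith, by linarith⟩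
  · rintro ⟨h1, h2, h3, h4⟩
    rcases le_total (45 * (x - x₀)) (32 * (y - y₀)) with h5 | h5
    · refine Or.inl ⟨(x - x₀) / 32, (1440 - (y - y₀)) / 45, by linarith, by linarith, ?_, ?_, ?_⟩
      · norm_num; linarith
      · ring
      · ring
    · rcases le_total (32 * (x - x₀) + 77 * (y - y₀)) (32 * 4489) with h6 | h6
      · refine Or.inr (Or.inl ⟨67 - 67 * (y - y₀) / 1440 - (45 * (x - x₀) - 32 * (y - y₀)) / 3015,
          (45 * (x - x₀) - 32 * (y - y₀)) / 3015, by linarith, by linarith, ?_, ?_, ?_⟩)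
        · norm_num; linarith
        · ring
        · ring
      · refine Or.inr (Or.inr ⟨(1440 - (y - y₀)) / 32, (4489 - (y - y₀) - (x - x₀)) / 45,
          by linarith, by linarith, ?_, ?_, ?_⟩)
        · norm_num; linarith
        · ring
        · ring

theorem box_a (x₀ y₀ : ℝ) (p : ℕ) :
    Cov 32 45 67 (Box x₀ y₀ (32 * (p + 1))) (64 * (p + 1)) := by
  have g : Good 32 45 67 (-32, 0) (0, 45) := by
    unfold Good Q; norm_num
  refine (par (P := (x₀ + 32 * (p + 1), y₀)) g p 31).cast ?_ (by ring)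
  ext ⟨x, y⟩
  simp only [Par, Box, Set.mem_ofPred_eq, Prod.smul_mk, Prod.mk_add_mk, Prod.mk.injEq, smul_eq_mul]
  constructor
  · rintro ⟨s, r, h1, h2, h3, h4, rfl, rfl⟩
    norm_num at h4
    refine ⟨by linarith, by linarith, by linarith, by linarith⟩
  · rintro ⟨h1, h2, h3, h4⟩
    refine ⟨(x₀ + 32 * (p + 1) - x) / 32, (y - y₀) / 45, by linarith, by linarith, by linarith,
      ?_, ?_, ?_⟩
    · norm_num; linarith
    · ring
    · ring

theorem box_b (x₀ y₀ : ℝ) : Cov 32 45 67 (Box x₀ y₀ 855) 1710 := by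
  have g : Good 32 45 67 (0, 32) (-45, 0) := by
    unfold Good Q; norm_num
  refine (par (P := (x₀ + 855, y₀)) g 44 18).cast ?_ (by norm_num)
  ext ⟨x, y⟩
  simp only [Par, Box, Set.mem_ofPred_eq, Prod.smul_mk, Prod.mk_add_mk, Prod.mk.injEq, smul_eq_mul]
  constructor
  · rintro ⟨s, r, h1, h2, h3, h4, rfl, rfl⟩
    norm_num at h2 h4
    refine ⟨by linarith, by linarith, by linarith, by linarith⟩
  · rintro ⟨h1, h2, h3, h4⟩
    refine ⟨(y - y₀) / 32, (x₀ + 855 - x) / 45, by linarith, ?_, by linarith, ?_, ?_, ?_⟩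
    · norm_num; linarith
    · norm_num; linarith
    · ring
    · ring

/-- trapezoids with a longer base -/
theorem layer (x₀ y₀ L : ℝ) (p : ℕ) (hL : L = 32 * (p + 1) + 855 + 4489) :
    Cov 32 45 67 (Trap x₀ y₀ L) (64 * (p + 1) + 1710 + 7538) := by
  refine (Cov.union (Cov.union (box_a x₀ y₀ p) (box_b (x₀ + 32 * (p + 1)) y₀))
    (trap_cov (x₀ + 32 * (p + 1) + 855) y₀)).cast ?_ rfl
  have hp : (0:ℝ) ≤ p := Nat.cast_nonneg p
  ext ⟨x, y⟩
  simp only [Set.mem_union, Box, Trap, Set.mem_ofPred_eq]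
  constructor
  · rintro ((⟨h1, h2, h3, h4⟩ | ⟨h1, h2, h3, h4⟩) | ⟨h1, h2, h3, h4⟩)
    · refine ⟨h1, h2, h3, by linarith⟩
    · refine ⟨h1, h2, by linarith, by linarith⟩
    · refine ⟨h1, h2, by linarith, by linarith⟩
  · rintro ⟨h1, h2, h3, h4⟩
    rcases le_total x (x₀ + 32 * (p + 1)) with h | h
    · exact Or.inl (Or.inl ⟨h1, h2, h3, h⟩)
    · rcases le_total x (x₀ + 32 * (p + 1) + 855) with h' | h'
      · exact Or.inl (Or.inr ⟨h1, h2, h, h'⟩)
      · exact Or.inr ⟨h1, h2, h', by linarith⟩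

/-- a third of the equilateral triangle -/
def W : Set (ℝ × ℝ) := {z | 0 ≤ z.2 ∧ z.2 ≤ 4320 ∧ 0 ≤ z.1 ∧ z.1 + z.2 ≤ 8640}

theorem W_cov : Cov 32 45 67 W 38880 := by
  refine (Cov.union (Cov.union (layer 0 0 8640 102 (by norm_num)) (layer 0 1440 7200 57
    (by norm_num))) (layer 0 2880 5760 12 (by norm_num))).cast ?_ (by norm_num)
  ext ⟨x, y⟩
  simp only [Set.mem_union, W, Trap, Set.mem_ofPred_eq]
  constructor
  · rintro ((⟨h1, h2, h3, h4⟩ | ⟨h1, h2, h3, h4⟩) | ⟨h1, h2, h3, h4⟩) <;>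
      refine ⟨by linarith, by linarith, by linarith, by linarith⟩
  · rintro ⟨h1, h2, h3, h4⟩
    rcases le_total y 1440 with h | h
    · exact Or.inl (Or.inl ⟨by linarith, by linarith, by linarith, by linarith⟩)
    · rcases le_total y 2880 with h' | h'
      · exact Or.inl (Or.inr ⟨by linarith, by linarith, by linarith, by linarith⟩)
      · exact Or.inr ⟨by linarith, by linarith, by linarith, by linarith⟩

/-- the rotation by 120 degrees about the centre -/
def rot (z : ℝ × ℝ) : ℝ × ℝ := (12960 - z.1 - z.2, z.1)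

theorem rot_cov {S : Set (ℝ × ℝ)} {n : ℕ} (h : Cov 32 45 67 S n) :
    Cov 32 45 67 (rot '' S) n := by
  refine h.image rot (fun z => (-z.1 - z.2, z.1)) (fun P U V s r => ?_) (fun U V => ?_)
    (fun U => ?_)
  · unfold rot
    ext
    · simp only [Prod.fst_add, Prod.snd_add, Prod.smul_fst, Prod.smul_snd, smul_eq_mul]; ring
    · simp only [Prod.fst_add, Prod.snd_add, Prod.smul_fst, Prod.smul_snd, smul_eq_mul]
  · ext
    · simp only [Prod.fst_sub, Prod.snd_sub]; ring
    · simp only [Prod.fst_sub, Prod.snd_sub]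
  · unfold Q
    ring

theorem big_cov : Cov 32 45 67 (Tri (0, 0) (12960, 0) (0, 12960)) 116640 := by
  refine (Cov.union (Cov.union W_cov (rot_cov W_cov)) (rot_cov (rot_cov W_cov))).cast ?_
    (by norm_num)
  ext ⟨x, y⟩
  have e1 : (x, y) ∈ rot '' W ↔ (y, 12960 - x - y) ∈ W := by
    constructor
    · rintro ⟨⟨x', y'⟩, h, h'⟩
      simp only [rot, Prod.mk.injEq] at h'
      obtain ⟨rfl, rfl⟩ := h'
      have : (x', 12960 - (12960 - x' - y') - x') = (x', y') := by
        ext
        · rfl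
        · show 12960 - (12960 - x' - y') - x' = y'
          ring
      rw [this]
      exact h
    · intro h
      refine ⟨_, h, ?_⟩
      simp only [rot, Prod.mk.injEq]
      constructor
      · ring
      · trivial
  have e2 : (x, y) ∈ rot '' (rot '' W) ↔ (12960 - x - y, x) ∈ W := by
    rw [Set.image_image]
    constructor
    · rintro ⟨⟨x', y'⟩, h, h'⟩
      simp only [rot, Prod.mk.injEq] at h'
      obtain ⟨rfl, rfl⟩ := h'
      have : (12960 - (12960 - (12960 - x' - y') - x') - (12960 - x' - y'),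
          12960 - (12960 - x' - y') - x') = (x', y') := by
        ext
        · show 12960 - (12960 - (12960 - x' - y') - x') - (12960 - x' - y') = x'
          ring
        · show 12960 - (12960 - x' - y') - x' = y'
          ring
      rw [this]
      exact h
    · intro h
      refine ⟨_, h, ?_⟩
      simp only [rot, Prod.mk.injEq]
      constructor
      · ring
      · ring
  rw [Set.mem_union, Set.mem_union, e1, e2]
  simp only [W, Tri, Set.mem_ofPred_eq, Prod.smul_mk, Prod.mk_add_mk, Prod.mk.injEq, smul_eq_mul]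
  constructor
  · rintro ((⟨h1, h2, h3, h4⟩ | ⟨h1, h2, h3, h4⟩) | ⟨h1, h2, h3, h4⟩) <;>
      refine ⟨x / 12960, y / 12960, by linarith, by linarith, by linarith, by ring, by ring⟩
  · rintro ⟨s, r, h1, h2, h3, rfl, rfl⟩
    rcases le_total (12960 * s) 4320 with h4 | h4 <;> rcases le_total (12960 * r) 4320 with h5 | h5 <;>
      rcases le_total (12960 * s + 12960 * r) 8640 with h6 | h6
    · exact Or.inl (Or.inl ⟨by linarith, by linarith, by linarith, by linarith⟩)
    · exact Or.inl (Or.inl ⟨by linarith, by linarith, by linarith, by linarith⟩)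
    · exact Or.inr ⟨by linarith, by linarith, by linarith, by linarith⟩
    · exact Or.inr ⟨by linarith, by linarith, by linarith, by linarith⟩
    · exact Or.inl (Or.inl ⟨by linarith, by linarith, by linarith, by linarith⟩)
    · exact Or.inl (Or.inr ⟨by linarith, by linarith, by linarith, by linarith⟩)
    · exact Or.inr ⟨by linarith, by linarith, by linarith, by linarith⟩
    · exact Or.inl (Or.inr ⟨by linarith, by linarith, by linarith, by linarith⟩)

end Pool.Agent.X152.TQ
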