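import Mathlib

/-!
# Coverings by triangles in lattice coordinates
-/

set_option autoImplicit false

namespace Pool.Agent.X152.TQ

/-- the square of the length in the coordinates with respect to `1` and `exp (π i / 3)` -/
def Q (p : ℝ × ℝ) : ℝ := p.1 ^ 2 + p.1 * p.2 + p.2 ^ 2

/-- the triangle with a vertex `P` and the sides `U`, `V` at this vertex -/
def Tri (P U V : ℝ × ℝ) : Set (ℝ × ℝ) :=
  {z | ∃ s r : ℝ, 0 ≤ s ∧ 0 ≤ r ∧ s + r ≤ 1 ∧ z = P + s • U + r • V}

/-- the sides `U`, `V` of a tile at the vertex between the sides `a` and `b` -/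
def Good (a b c : ℝ) (U V : ℝ × ℝ) : Prop := Q U = a ^ 2 ∧ Q V = b ^ 2 ∧ Q (U - V) = c ^ 2

/-- `S` is a union of `n` tiles -/
inductive Cov (a b c : ℝ) : Set (ℝ × ℝ) → ℕ → Prop
  | tile {P U V : ℝ × ℝ} : Good a b c U V → Cov a b c (Tri P U V) 1
  | union {S S' : Set (ℝ × ℝ)} {n n' : ℕ} : Cov a b c S n → Cov a b c S' n' →
      Cov a b c (S ∪ S') (n + n')

variable {a b c : ℝ}

theorem Good.neg {U V : ℝ × ℝ} (h : Good a b c U V) : Good a b c (-U) (-V) := by
  unfold Good Q at *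
  simp only [Prod.fst_neg, Prod.snd_neg, Prod.fst_sub, Prod.snd_sub] at *
  obtain ⟨h1, h2, h3⟩ := h
  refine ⟨by linarith, by linarith, ?_⟩
  linarith

/-- images under motions -/
theorem Cov.image {S : Set (ℝ × ℝ)} {n : ℕ} (h : Cov a b c S n) (f : ℝ × ℝ → ℝ × ℝ)
    (M : ℝ × ℝ → ℝ × ℝ) (hf : ∀ P U V : ℝ × ℝ, ∀ s r : ℝ,
      f (P + s • U + r • V) = f P + s • M U + r • M V)
    (hM : ∀ U V, M (U - V) = M U - M V) (hQ : ∀ U, Q (M U) = Q U) : Cov a b c (f '' S) n := by
  induction h with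
  | @tile P U V hG =>
    have e : f '' Tri P U V = Tri (f P) (M U) (M V) := by
      ext z
      constructor
      · rintro ⟨w, ⟨s, r, h1, h2, h3, rfl⟩, rfl⟩
        exact ⟨s, r, h1, h2, h3, hf P U V s r⟩
      · rintro ⟨s, r, h1, h2, h3, rfl⟩
        exact ⟨P + s • U + r • V, ⟨s, r, h1, h2, h3, rfl⟩, hf P U V s r⟩
    rw [e]
    refine Cov.tile ⟨?_, ?_, ?_⟩
    · rw [hQ]; exact hG.1
    · rw [hQ]; exact hG.2.1
    · rw [← hM, hQ]; exact hG.2.2
  | union _ _ ih1 ih2 =>
    rw [Set.image_union]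
    exact Cov.union ih1 ih2

theorem Cov.cast {S S' : Set (ℝ × ℝ)} {n n' : ℕ} (h : Cov a b c S n) (hS : S = S')
    (hn : n = n') : Cov a b c S' n' := by
  subst hS hn
  exact h

/-- parallelograms -/
def Par (P U V : ℝ × ℝ) (p q : ℝ) : Set (ℝ × ℝ) :=
  {z | ∃ s r : ℝ, 0 ≤ s ∧ s ≤ p ∧ 0 ≤ r ∧ r ≤ q ∧ z = P + s • U + r • V}

theorem par_one {P U V : ℝ × ℝ} (h : Good a b c U V) : Cov a b c (Par P U V 1 1) 2 := by
  refine (Cov.union (Cov.tile (P := P) h) (Cov.tile (P := P + U + V) h.neg)).cast ?_ rfl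
  ext z
  constructor
  · rintro (⟨s, r, h1, h2, h3, rfl⟩ | ⟨s, r, h1, h2, h3, rfl⟩)
    · exact ⟨s, r, h1, by linarith, h2, by linarith, rfl⟩
    · refine ⟨1 - s, 1 - r, by linarith, by linarith, by linarith, by linarith, ?_⟩
      ext
      · simp only [Prod.fst_add, Prod.smul_fst, Prod.fst_neg, smul_eq_mul]; ring
      · simp only [Prod.snd_add, Prod.smul_snd, Prod.snd_neg, smul_eq_mul]; ring
  · rintro ⟨s, r, h1, h2, h3, h4, rfl⟩
    rcases le_total (s + r) 1 with h | h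
    · exact Or.inl ⟨s, r, h1, h3, h, rfl⟩
    · refine Or.inr ⟨1 - s, 1 - r, by linarith, by linarith, by linarith, ?_⟩
      ext
      · simp only [Prod.fst_add, Prod.smul_fst, Prod.fst_neg, smul_eq_mul]; ring
      · simp only [Prod.snd_add, Prod.smul_snd, Prod.snd_neg, smul_eq_mul]; ring

theorem par_row {P U V : ℝ × ℝ} (h : Good a b c U V) (p : ℕ) :
    Cov a b c (Par P U V (p + 1) 1) (2 * (p + 1)) := by
  induction p generalizing P with
  | zero =>
    refine (par_one (P := P) h).cast ?_ rfl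
    simp
  | succ p ih =>
    refine (Cov.union (ih (P := P + U)) (par_one (P := P) h)).cast ?_ (by ring)
    have hp : (0:ℝ) ≤ p := Nat.cast_nonneg p
    ext z
    constructor
    · rintro (⟨s, r, h1, h2, h3, h4, rfl⟩ | ⟨s, r, h1, h2, h3, h4, rfl⟩)
      · refine ⟨s + 1, r, by linarith, by push_cast; linarith, h3, h4, ?_⟩
        rw [add_smul, one_smul]; abel
      · exact ⟨s, r, h1, by push_cast; linarith, h3, h4, rfl⟩
    · rintro ⟨s, r, h1, h2, h3, h4, rfl⟩
      push_cast at h2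
      rcases le_total s 1 with h | h
      · exact Or.inr ⟨s, r, h1, h, h3, h4, rfl⟩
      · refine Or.inl ⟨s - 1, r, by linarith, by linarith, h3, h4, ?_⟩
        rw [sub_smul, one_smul]; abel

theorem par {P U V : ℝ × ℝ} (h : Good a b c U V) (p q : ℕ) :
    Cov a b c (Par P U V (p + 1) (q + 1)) (2 * (p + 1) * (q + 1)) := by
  induction q generalizing P with
  | zero =>
    refine (par_row (P := P) h p).cast ?_ (by ring)
    simp
  | succ q ih =>
    refine (Cov.union (ih (P := P + V)) (par_row (P := P) h p)).cast ?_ (by ring)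
    have hq : (0:ℝ) ≤ q := Nat.cast_nonneg q
    ext z
    constructor
    · rintro (⟨s, r, h1, h2, h3, h4, rfl⟩ | ⟨s, r, h1, h2, h3, h4, rfl⟩)
      · refine ⟨s, r + 1, h1, h2, by linarith, by push_cast; linarith, ?_⟩
        rw [add_smul, one_smul]; abel
      · exact ⟨s, r, h1, h2, h3, by push_cast; linarith, rfl⟩
    · rintro ⟨s, r, h1, h2, h3, h4, rfl⟩
      push_cast at h4
      rcases le_total r 1 with h | h
      · exact Or.inr ⟨s, r, h1, h2, h3, h, rfl⟩
      · refine Or.inl ⟨s, r - 1, h1, h2, by linarith, by linarith, ?_⟩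
        rw [sub_smul, one_smul]; abel

/-- scaled triangles -/
def TriN (P U V : ℝ × ℝ) (k : ℝ) : Set (ℝ × ℝ) :=
  {z | ∃ s r : ℝ, 0 ≤ s ∧ 0 ≤ r ∧ s + r ≤ k ∧ z = P + s • U + r • V}

theorem triN {P U V : ℝ × ℝ} (h : Good a b c U V) (k : ℕ) :
    Cov a b c (TriN P U V (k + 1)) ((k + 1) ^ 2) := by
  induction k generalizing P with
  | zero =>
    refine (Cov.tile (P := P) h).cast ?_ (by norm_num)
    simp [Tri, TriN]
  | succ k ih =>
    refine (Cov.union (ih (P := P + U)) (Cov.union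
      (Cov.tile (P := P + ((k : ℝ) + 1) • V) h) (par h 0 k (P := P)))).cast ?_ (by ring)
    have hk : (0:ℝ) ≤ k := Nat.cast_nonneg k
    ext z
    constructor
    · rintro (⟨s, r, h1, h2, h3, rfl⟩ | ⟨s, r, h1, h2, h3, rfl⟩ | ⟨s, r, h1, h2, h3, h4, rfl⟩)
      · refine ⟨s + 1, r, by linarith, h2, by push_cast; linarith, ?_⟩
        rw [add_smul, one_smul]; abel
      · refine ⟨s, r + (k + 1), h1, by linarith, by push_cast; linarith, ?_⟩
        rw [add_smul r]; abel
      · refine ⟨s, r, h1, h3, ?_, rfl⟩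
        push_cast at *
        linarith
    · rintro ⟨s, r, h1, h2, h3, rfl⟩
      push_cast at h3
      rcases le_total 1 s with h | h
      · refine Or.inl ⟨s - 1, r, by linarith, h2, by linarith, ?_⟩
        rw [sub_smul, one_smul]; abel
      · rcases le_total ((k : ℝ) + 1) r with h' | h'
        · refine Or.inr (Or.inl ⟨s, r - (k + 1), h1, by linarith, by linarith, ?_⟩)
          rw [sub_smul]; abel
        · refine Or.inr (Or.inr ⟨s, r, h1, ?_, h2, h', rfl⟩)
          push_cast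
          linarith

end Pool.Agent.X152.TQ
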